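import Pool.Agent.W236.SC.Defs2

/-! SC-WEAK: the weak order by inversion sets. -/

set_option autoImplicit false

namespace Pool.Agent.W249.SC

open Pool.Agent.Helper741 Pool.Agent.W236.SC

variable {B : Type*} [Fintype B] [DecidableEq B] {M : CoxeterMatrix B}
variable {W : Type*} [Group W] (cs : CoxeterSystem M W)

namespace Weak

omit [Fintype B] [DecidableEq B] in
lemma linv (u v : W) : cs.length (u⁻¹ * v) = cs.length (v⁻¹ * u) := by
  rw [← cs.length_inv (u⁻¹ * v), mul_inv_rev, inv_inv]

omit [Fintype B] [DecidableEq B] in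
lemma zero_of {x : B → ℝ} (h1 : 0 ≤ x) (h2 : x ≤ 0) : x = 0 := le_antisymm h2 h1

/-- inversions of `w s` -/
lemma inv_step (hB : BaseF cs) (w : W) (s : B) (h : cs.length w < cs.length (w * cs.simple s))
    (β : B → ℝ) (hr : IsRt cs β) (hp : 0 ≤ β) :
    geo cs (w * cs.simple s)⁻¹ β ≤ 0 ↔ (geo cs w⁻¹ β ≤ 0 ∨ β = geo cs w (ee s)) := by
  have e1 : geo cs (w * cs.simple s)⁻¹ β = geo cs (cs.simple s) (geo cs w⁻¹ β) := by
    rw [mul_inv_rev, cs.inv_simple, map_mul, Module.End.mul_apply]
  have e2 : ∀ x : B → ℝ, geo cs w⁻¹ β = x → β = geo cs w x := by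
    intro x hx
    rw [← hx, ← Module.End.mul_apply, ← map_mul, mul_inv_cancel, map_one, Module.End.one_apply]
  have hrx : IsRt cs (geo cs w⁻¹ β) := hB.rt_geo _ _ hr
  rw [e1]
  constructor
  · intro h1
    rcases hB.rt_sign _ hrx with h2 | h2
    · right
      by_cases h3 : geo cs w⁻¹ β = ee s
      · exact e2 _ h3
      · exfalso
        have h4 := hB.rt_simple _ s hrx h2 h3
        exact hB.rt_ne _ (hB.rt_geo (cs.simple s) _ hrx) (zero_of h4 h1)
    · exact Or.inl h2
  · rintro (h1 | h1)
    · have hn : IsRt cs (-(geo cs w⁻¹ β)) := hB.rt_neg _ hrx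
      have hn0 : 0 ≤ -(geo cs w⁻¹ β) := neg_nonneg.2 h1
      by_cases h3 : -(geo cs w⁻¹ β) = ee s
      · exfalso
        have h4 : geo cs w⁻¹ β = - ee s := by rw [← h3, neg_neg]
        have h5 := e2 _ h4
        rw [map_neg] at h5
        have h6 := geo_nonneg cs w s h
        have h7 : β ≤ 0 := by rw [h5]; exact neg_nonpos.2 h6
        exact hB.rt_ne _ hr (zero_of hp h7)
      · have h4 := hB.rt_simple _ s hn hn0 h3
        rw [map_neg] at h4
        exact neg_nonneg.1 h4
    · have h2 : geo cs w⁻¹ β = ee s := by rw [h1, geo_inv_apply]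
      rw [h2, geo_simple, sg_ee_self]
      exact neg_nonpos.2 (ee_nonneg s)

lemma inv_of_add (hB : BaseF cs) (k : ℕ) : ∀ u x : W, cs.length x = k →
    cs.length u + cs.length x = cs.length (u * x) → ∀ β, IsRt cs β → 0 ≤ β →
    geo cs u⁻¹ β ≤ 0 → geo cs (u * x)⁻¹ β ≤ 0 := by
  induction k with
  | zero =>
    intro u x hx _ β _ _ h
    rw [cs.length_eq_zero_iff.1 hx, mul_one]
    exact h
  | succ k ih =>
    intro u x hx hlen β hr hp h
    have hx1 : x ≠ 1 := by
      rintro rfl
      rw [cs.length_one] at hx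
      omega
    obtain ⟨s, hs⟩ := cs.exists_rightDescent_of_ne_one hx1
    have hs' : cs.length (x * cs.simple s) < cs.length x := hs
    have h1 : cs.length (x * cs.simple s) = k := by
      rcases cs.length_mul_simple x s with h1 | h1 <;> omega
    have h2 : u * (x * cs.simple s) * cs.simple s = u * x := by
      rw [mul_assoc, cs.simple_mul_simple_cancel_right]
    have h3 := cs.length_mul_le u (x * cs.simple s)
    have h4 := cs.length_mul_simple (u * (x * cs.simple s)) s
    rw [h2] at h4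
    have h5 := ih u (x * cs.simple s) h1 (by omega) β hr hp h
    have h6 := (inv_step cs hB (u * (x * cs.simple s)) s (by rw [h2]; omega) β hr hp).2
      (Or.inl h5)
    rwa [h2] at h6

lemma add_of_inv (hB : BaseF cs) (k : ℕ) : ∀ u v : W, cs.length u = k →
    (∀ β, IsRt cs β → 0 ≤ β → geo cs u⁻¹ β ≤ 0 → geo cs v⁻¹ β ≤ 0) → WLe cs u v := by
  induction k with
  | zero =>
    intro u v hu _
    rw [cs.length_eq_zero_iff.1 hu, WLe, cs.length_one, inv_one, one_mul, zero_add]
  | succ k ih =>
    intro u v hu hN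
    have hu1 : u ≠ 1 := by
      rintro rfl
      rw [cs.length_one] at hu
      omega
    obtain ⟨s, hs⟩ := cs.exists_rightDescent_of_ne_one hu1
    have hs' : cs.length (u * cs.simple s) < cs.length u := hs
    have h1 : cs.length (u * cs.simple s) = k := by
      rcases cs.length_mul_simple u s with h1 | h1 <;> omega
    set u' := u * cs.simple s with hu'
    have h2 : u' * cs.simple s = u := by rw [hu', cs.simple_mul_simple_cancel_right]
    have h3 : cs.length u' < cs.length (u' * cs.simple s) := by rw [h2]; exact hs'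
    have h4 : WLe cs u' v := by
      refine ih u' v h1 fun β hr hp h => hN β hr hp ?_
      have := (inv_step cs hB u' s h3 β hr hp).2 (Or.inl h)
      rwa [h2] at this
    have h5 : geo cs v⁻¹ (geo cs u' (ee s)) ≤ 0 := by
      refine hN _ (hB.rt_geo _ _ (hB.rt_ee s)) (geo_nonneg cs u' s h3) ?_
      have := (inv_step cs hB u' s h3 _ (hB.rt_geo _ _ (hB.rt_ee s))
        (geo_nonneg cs u' s h3)).2 (Or.inr rfl)
      rwa [h2] at this
    rw [← Module.End.mul_apply, ← map_mul, geo_nonpos_iff, mul_assoc, h2] at h5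
    have h6 : cs.length (v⁻¹ * u) = cs.length (v⁻¹ * u' * cs.simple s) := by
      rw [mul_assoc, h2]
    have h7 := cs.length_mul_simple (v⁻¹ * u') s
    rw [← h6] at h7
    unfold WLe at h4 ⊢
    rw [linv cs u' v] at h4
    rw [linv cs u v]
    omega

lemma wle_iff (hB : BaseF cs) (u v : W) : WLe cs u v ↔
    ∀ β, IsRt cs β → 0 ≤ β → geo cs u⁻¹ β ≤ 0 → geo cs v⁻¹ β ≤ 0 := by
  constructor
  · intro h β hr hp h1
    have h2 := inv_of_add cs hB _ u (u⁻¹ * v) rfl (by
      rw [mul_inv_cancel_left]; exact h) β hr hp h1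
    rwa [mul_inv_cancel_left] at h2
  · exact add_of_inv cs hB _ u v rfl

end Weak

open Weak in
theorem weak (hB : BaseF cs) : S_WEAK cs := by
  refine ⟨wle_iff cs hB, ?_, ?_, ?_, ?_, ?_, ?_⟩
  · intro u
    rw [WLe, inv_mul_cancel, cs.length_one, add_zero]
  · intro u v w h1 h2
    rw [wle_iff cs hB] at h1 h2 ⊢
    intro β hr hp h
    exact h2 β hr hp (h1 β hr hp h)
  · intro u v h1 h2
    unfold WLe at h1 h2
    have h3 : cs.length (u⁻¹ * v) = 0 := by omega
    rw [cs.length_eq_zero_iff] at h3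
    rw [inv_mul_eq_one] at h3
    exact h3
  · intro u v h hne
    have hx : u⁻¹ * v ≠ 1 := by
      intro h0; rw [inv_mul_eq_one] at h0; exact hne h0
    obtain ⟨s, hs⟩ := cs.exists_leftDescent_of_ne_one hx
    have hs' : cs.length (cs.simple s * (u⁻¹ * v)) < cs.length (u⁻¹ * v) := hs
    have h1 := cs.length_simple_mul (u⁻¹ * v) s
    have h2 : (u * cs.simple s)⁻¹ * v = cs.simple s * (u⁻¹ * v) := by
      rw [mul_inv_rev, cs.inv_simple, mul_assoc]
    have h3 := cs.length_mul_le (u * cs.simple s) ((u * cs.simple s)⁻¹ * v)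
    rw [mul_inv_cancel_left, h2] at h3
    have h4 := cs.length_mul_simple u s
    unfold WLe at h ⊢
    refine ⟨s, by omega, ?_⟩
    rw [h2]
    omega
  · intro u v h hne
    have hx : u⁻¹ * v ≠ 1 := by
      intro h0; rw [inv_mul_eq_one] at h0; exact hne h0
    obtain ⟨s, hs⟩ := cs.exists_rightDescent_of_ne_one hx
    have hs' : cs.length (u⁻¹ * v * cs.simple s) < cs.length (u⁻¹ * v) := hs
    have h1 := cs.length_mul_simple (u⁻¹ * v) s
    have h2 : u⁻¹ * (v * cs.simple s) = u⁻¹ * v * cs.simple s := by rw [mul_assoc]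
    have h3 := cs.length_mul_le u (u⁻¹ * (v * cs.simple s))
    rw [mul_inv_cancel_left, h2] at h3
    have h4 := cs.length_mul_simple v s
    unfold WLe at h ⊢
    refine ⟨s, by omega, ?_⟩
    rw [h2]
    omega
  · intro u v s hs h
    rw [← Module.End.mul_apply, ← map_mul, geo_nonpos_iff]
    have h1 := cs.length_mul_simple (v⁻¹ * u) s
    have h2 := cs.length_mul_simple u s
    have h3 : cs.length ((u * cs.simple s)⁻¹ * v) = cs.length (v⁻¹ * u * cs.simple s) := by
      rw [linv cs (u * cs.simple s) v, mul_assoc]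
    unfold WLe at h ⊢
    rw [linv cs u v] at h
    rw [h3]
    omega

end Pool.Agent.W249.SC

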